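import Pool.Agent.H174.GP.StP

/-!
# Laplace moment generating function
-/

set_option autoImplicit false

open MeasureTheory ProbabilityTheory Finset

namespace Pool.Agent.H828.GP174

open Pool.Agent.H174.GP

theorem dens_meas : Measurable (fun x : ℝ => ENNReal.ofReal (Real.exp (-|x|) / 2)) := by
  fun_prop

theorem lap_integrable (g : ℝ → ℝ) :
    Integrable g lap ↔ Integrable (fun x => Real.exp (-|x|) / 2 * g x) := by
  unfold lap
  rw [integrable_withDensity_iff_integrable_smul' dens_meas
    (Filter.Eventually.of_forall fun x => ENNReal.ofReal_lt_top)]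
  have h : (fun x => (ENNReal.ofReal (Real.exp (-|x|) / 2)).toReal • g x) =
      fun x => Real.exp (-|x|) / 2 * g x := by
    funext x
    rw [ENNReal.toReal_ofReal (by positivity), smul_eq_mul]
  rw [h]

theorem lap_integral (g : ℝ → ℝ) : ∫ x, g x ∂lap = ∫ x, Real.exp (-|x|) / 2 * g x := by
  unfold lap
  rw [integral_withDensity_eq_integral_toReal_smul dens_meas
    (Filter.Eventually.of_forall fun x => ENNReal.ofReal_lt_top)]
  refine integral_congr_ae (Filter.Eventually.of_forall fun x => ?_)
  change (ENNReal.ofReal (Real.exp (-|x|) / 2)).toReal • g x = _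
  rw [ENNReal.toReal_ofReal (by positivity), smul_eq_mul]

theorem gp_l2 : Pool.Agent.H174.GP.S_L2 := by
  intro θ hθ
  obtain ⟨h1, h2⟩ := abs_lt.1 hθ
  have e1 : Set.EqOn (fun x => Real.exp (-|x|) / 2 * Real.exp (θ * x))
      (fun x => (1 / 2) * Real.exp ((1 + θ) * x)) (Set.Iic 0) := by
    intro x hx
    have hx' : x ≤ 0 := hx
    simp only
    rw [abs_of_nonpos hx', neg_neg, add_mul, one_mul, Real.exp_add]
    ring
  have e2 : Set.EqOn (fun x => Real.exp (-|x|) / 2 * Real.exp (θ * x))
      (fun x => (1 / 2) * Real.exp ((θ - 1) * x)) (Set.Ioi 0) := by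
    intro x hx
    have hx' : 0 < x := hx
    simp only
    rw [abs_of_pos hx', sub_mul, one_mul, sub_eq_add_neg, Real.exp_add]
    ring
  have i1 : IntegrableOn (fun x => Real.exp (-|x|) / 2 * Real.exp (θ * x)) (Set.Iic 0) :=
    (integrableOn_congr_fun e1 measurableSet_Iic).2
      ((integrableOn_exp_mul_Iic (by linarith : 0 < 1 + θ) 0).const_mul (1 / 2))
  have i2 : IntegrableOn (fun x => Real.exp (-|x|) / 2 * Real.exp (θ * x)) (Set.Ioi 0) :=
    (integrableOn_congr_fun e2 measurableSet_Ioi).2
      ((integrableOn_exp_mul_Ioi (by linarith : θ - 1 < 0) 0).const_mul (1 / 2))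
  have i3 : Integrable (fun x => Real.exp (-|x|) / 2 * Real.exp (θ * x)) := by
    have h := i1.union i2
    rwa [Set.Iic_union_Ioi, integrableOn_univ] at h
  refine ⟨(lap_integrable _).2 i3, ?_⟩
  rw [lap_integral, ← intervalIntegral.integral_Iic_add_Ioi i1 i2,
    setIntegral_congr_fun measurableSet_Iic e1, setIntegral_congr_fun measurableSet_Ioi e2,
    integral_const_mul, integral_const_mul, integral_exp_mul_Iic (by linarith : 0 < 1 + θ),
    integral_exp_mul_Ioi (by linarith : θ - 1 < 0), mul_zero, mul_zero, Real.exp_zero]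
  have h3 : 1 + θ ≠ 0 := by linarith
  have h4 : θ - 1 ≠ 0 := by linarith
  have h5 : 1 - θ ^ 2 ≠ 0 := by nlinarith
  field_simp
  ring

end Pool.Agent.H828.GP174
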