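import Pool.Agent.H174.GP.StP
import Pool.Agent.H174.GP.StC
import Pool.Agent.H174.GP.StB

/-!
# A good value near the mean
-/

set_option autoImplicit false

open MeasureTheory ProbabilityTheory Finset

namespace Pool.Agent.H828.GP174

open Pool.Agent.H174.GP

/-- The floor of a nonnegative number as a series. -/
theorem floor_series (b y : ℝ) (hb : 0 < b) :
    ∑' k : ℕ, Set.indicator {x : ℝ | b * ((k : ℝ) + 1) ≤ |x|} (fun _ => (1 : ℝ)) y =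
      ((⌊|y| / b⌋ : ℤ) : ℝ) := by
  have h0 : 0 ≤ |y| / b := by positivity
  have h1 : ∀ k : ℕ, Set.indicator {x : ℝ | b * ((k : ℝ) + 1) ≤ |x|} (fun _ => (1 : ℝ)) y =
      if k < ⌊|y| / b⌋₊ then 1 else 0 := by
    intro k
    by_cases hk : k < ⌊|y| / b⌋₊
    · rw [if_pos hk, Set.indicator_of_mem]
      change b * ((k : ℝ) + 1) ≤ |y|
      have h2 : ((k + 1 : ℕ) : ℝ) ≤ |y| / b := (Nat.le_floor_iff h0).1 hk
      rw [le_div_iff₀ hb] at h2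
      push_cast at h2
      linarith
    · rw [if_neg hk, Set.indicator_of_notMem]
      intro h2
      apply hk
      change b * ((k : ℝ) + 1) ≤ |y| at h2
      refine (Nat.le_floor_iff h0).2 ?_
      rw [le_div_iff₀ hb]
      push_cast
      linarith
  rw [tsum_congr h1, tsum_eq_sum (s := Finset.range ⌊|y| / b⌋₊)]
  · rw [Finset.sum_congr rfl (fun k hk => if_pos (Finset.mem_range.1 hk)), Finset.sum_const,
      Finset.card_range, nsmul_eq_mul, mul_one]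
    have h3 : ((⌊|y| / b⌋₊ : ℤ)) = ⌊|y| / b⌋ := Int.natCast_floor_eq_floor h0
    exact_mod_cast h3
  · intro k hk
    exact if_neg (fun h => hk (Finset.mem_range.2 h))

theorem floor_int (h3 : S_L3) (b : ℝ) (hb : 0 < b) :
    ∫ x, ((⌊|x| / b⌋ : ℤ) : ℝ) ∂lap = Real.exp (-b) / (1 - Real.exp (-b)) := by
  have hm : ∀ k : ℕ, MeasurableSet {x : ℝ | b * ((k : ℝ) + 1) ≤ |x|} := fun k =>
    measurableSet_le measurable_const measurable_id.abs
  have hI : ∀ k : ℕ, Integrable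
      (Set.indicator {x : ℝ | b * ((k : ℝ) + 1) ≤ |x|} (fun _ => (1 : ℝ))) lap := fun k =>
    (integrable_const (1 : ℝ)).indicator (hm k)
  have hv : ∀ k : ℕ, ∫ x, Set.indicator {x : ℝ | b * ((k : ℝ) + 1) ≤ |x|} (fun _ => (1 : ℝ)) x ∂lap
      = Real.exp (-b) * Real.exp (-b) ^ k := by
    intro k
    rw [integral_indicator_const _ (hm k), smul_eq_mul, mul_one, h3.2.1 _ (by positivity),
      ← Real.exp_nat_mul, ← Real.exp_add]
    congr 1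
    ring
  have hn : ∀ k : ℕ, ∫ x, ‖Set.indicator {x : ℝ | b * ((k : ℝ) + 1) ≤ |x|} (fun _ => (1 : ℝ)) x‖ ∂lap
      = Real.exp (-b) * Real.exp (-b) ^ k := by
    intro k
    rw [← hv k]
    refine integral_congr_ae (Filter.Eventually.of_forall fun x => ?_)
    exact Real.norm_of_nonneg (Set.indicator_nonneg (fun _ _ => zero_le_one) x)
  have hr0 : 0 ≤ Real.exp (-b) := (Real.exp_pos _).le
  have hr1 : Real.exp (-b) < 1 := by
    rw [Real.exp_lt_one_iff]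
    linarith
  have hg : HasSum (fun k : ℕ => Real.exp (-b) * Real.exp (-b) ^ k)
      (Real.exp (-b) * (1 - Real.exp (-b))⁻¹) := (hasSum_geometric_of_lt_one hr0 hr1).mul_left _
  have hs := hasSum_integral_of_summable_integral_norm hI (by
    refine hg.summable.congr fun k => ?_
    exact (hn k).symm)
  have e1 : (∫ x, ∑' k : ℕ, Set.indicator {x : ℝ | b * ((k : ℝ) + 1) ≤ |x|} (fun _ => (1 : ℝ)) x ∂lap)
      = ∫ x, ((⌊|x| / b⌋ : ℤ) : ℝ) ∂lap :=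
    integral_congr_ae (Filter.Eventually.of_forall fun x => floor_series b x hb)
  rw [e1] at hs
  have e2 : (fun k : ℕ => ∫ x, Set.indicator {x : ℝ | b * ((k : ℝ) + 1) ≤ |x|} (fun _ => (1 : ℝ)) x ∂lap)
      = fun k : ℕ => Real.exp (-b) * Real.exp (-b) ^ k := funext hv
  rw [e2] at hs
  rw [hs.unique hg, div_eq_mul_inv]

/-- The functions `ψ_j`. -/
noncomputable def psi (σ : ℝ) (j : ℕ) (x : ℝ) : ℝ := (j : ℝ) * ((⌊|x| / (2 * σ * j)⌋ : ℤ) : ℝ)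

theorem psi_meas (σ : ℝ) (j : ℕ) : Measurable (psi σ j) := by
  have h1 : Measurable (fun x : ℝ => (⌊|x| / (2 * σ * j)⌋ : ℤ)) :=
    Int.measurable_floor.comp (measurable_id.abs.div_const _)
  have h2 : Measurable (fun z : ℤ => (z : ℝ)) := measurable_from_top
  exact (h2.comp h1).const_mul _

theorem psi_bd {σ : ℝ} (hσ : 0 < σ) {j : ℕ} (hj : 1 ≤ j) (x : ℝ) :
    0 ≤ psi σ j x ∧ (psi σ j x) ^ 2 ≤ 1 / (4 * σ ^ 2) * x ^ 2 := by
  have hj' : (0 : ℝ) < j := by exact_mod_cast hj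
  have h0 : 0 ≤ |x| / (2 * σ * j) := by positivity
  have h1 : (0 : ℝ) ≤ ((⌊|x| / (2 * σ * j)⌋ : ℤ) : ℝ) := by exact_mod_cast Int.floor_nonneg.2 h0
  have h2 : ((⌊|x| / (2 * σ * j)⌋ : ℤ) : ℝ) ≤ |x| / (2 * σ * j) := Int.floor_le _
  have h3 : 0 ≤ psi σ j x := mul_nonneg hj'.le h1
  have h4 : psi σ j x ≤ |x| / (2 * σ) := by
    refine (mul_le_mul_of_nonneg_left h2 hj'.le).trans (le_of_eq ?_)
    field_simp
  refine ⟨h3, ?_⟩
  calc (psi σ j x) ^ 2 ≤ (|x| / (2 * σ)) ^ 2 := pow_le_pow_left₀ h3 h4 2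
    _ = 1 / (4 * σ ^ 2) * x ^ 2 := by
      rw [div_pow, sq_abs]
      ring

theorem psi_int2 (h1 : S_L1) {σ : ℝ} (hσ : 0 < σ) {j : ℕ} (hj : 1 ≤ j) :
    Integrable (fun x => (psi σ j x) ^ 2) lap ∧ ∫ x, (psi σ j x) ^ 2 ∂lap ≤ 1 / (2 * σ ^ 2) := by
  have hx : Integrable (fun x : ℝ => 1 / (4 * σ ^ 2) * x ^ 2) lap := (h1.2.2.2.1 2).const_mul _
  have hi : Integrable (fun x => (psi σ j x) ^ 2) lap := by
    refine hx.mono' ((psi_meas σ j).pow_const 2).aestronglyMeasurable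
      (Filter.Eventually.of_forall fun x => ?_)
    rw [Real.norm_of_nonneg (sq_nonneg _)]
    exact (psi_bd hσ hj x).2
  refine ⟨hi, ?_⟩
  calc ∫ x, (psi σ j x) ^ 2 ∂lap ≤ ∫ x, 1 / (4 * σ ^ 2) * x ^ 2 ∂lap :=
        integral_mono hi hx (fun x => (psi_bd hσ hj x).2)
    _ = 1 / (2 * σ ^ 2) := by
      rw [integral_const_mul, h1.1]
      field_simp
      norm_num

theorem psi_int1 (h3 : S_L3) {σ : ℝ} (hσ : 0 < σ) {j : ℕ} (hj : 1 ≤ j) :
    ∫ x, psi σ j x ∂lap =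
      (j : ℝ) * (Real.exp (-(2 * σ * j)) / (1 - Real.exp (-(2 * σ * j)))) := by
  have hj' : (0 : ℝ) < j := by exact_mod_cast hj
  unfold psi
  rw [integral_const_mul, floor_int h3 _ (by positivity)]

theorem card_bound (x t : ℝ) (ht : 0 ≤ t) :
    ((Finset.Icc ⌈x - t⌉ ⌊x + t⌋).card : ℝ) ≤ 2 * t + 1 := by
  rw [Int.card_Icc]
  rcases le_or_gt 0 (⌊x + t⌋ + 1 - ⌈x - t⌉) with h | h
  · have h1 : (((⌊x + t⌋ + 1 - ⌈x - t⌉).toNat : ℤ) : ℝ) = ((⌊x + t⌋ + 1 - ⌈x - t⌉ : ℤ) : ℝ) := by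
      rw [Int.toNat_of_nonneg h]
    have h2 : (((⌊x + t⌋ + 1 - ⌈x - t⌉).toNat : ℕ) : ℝ) = ((⌊x + t⌋ + 1 - ⌈x - t⌉ : ℤ) : ℝ) := by
      rw [← h1]
      norm_cast
    rw [h2]
    push_cast
    have h3 := Int.floor_le (x + t)
    have h4 := Int.le_ceil (x - t)
    linarith
  · rw [Int.toNat_of_nonpos h.le]
    push_cast
    linarith

theorem gp_acheb (h1 : S_aalaw) (h2 : S_var2) (h3 : S_L1) (h4 : S_L3) :
    Pool.Agent.H174.GP.S_acheb := by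
  intro s1 s2 hs1 hs2
  refine ⟨1 / s1, by positivity, 1 / (4 * (2 / s1 + 1)), by positivity, 1, ?_⟩
  intro d hd σ hσ hsd _
  have hd0 : (0 : ℝ) < d := by exact_mod_cast hd
  have hd1 : (1 : ℝ) ≤ d := by exact_mod_cast hd
  set t : ℝ := 1 / s1 * (d : ℝ) ^ (3 / 2 : ℝ) with ht
  have ht0 : 0 < t := by positivity
  by_contra hcon
  push Not at hcon
  -- all values in the range are small
  have hsm : ∀ m ∈ Finset.Icc ⌈mu d σ - t⌉ ⌊mu d σ + t⌋,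
      aa d σ m ≤ 1 / (4 * (2 / s1 + 1)) * (d : ℝ) ^ (-(3 / 2) : ℝ) := by
    intro m hm
    rw [Finset.mem_Icc, Int.ceil_le, Int.le_floor] at hm
    rcases le_or_gt 0 m with h | h
    · obtain ⟨n, rfl⟩ := Int.eq_ofNat_of_zero_le h
      refine (hcon n ?_).le
      rw [abs_le]
      have ha := hm.1
      have hb := hm.2
      rw [Int.cast_natCast] at ha hb
      constructor <;> linarith
    · unfold aa
      rw [if_neg (not_le.2 h)]
      positivity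
  -- Chebyshev
  have hv := h2 (Finset.Icc 1 d) (psi σ) t ht0 (fun j _ => psi_meas σ j)
    (fun j hj => (psi_int2 h3 hσ (Finset.mem_Icc.1 hj).1).1)
  have hsum : (∑ j ∈ Finset.Icc 1 d, ∫ x, (psi σ j x) ^ 2 ∂lap) / t ^ 2 ≤ 1 / 2 := by
    have e1 : ∑ j ∈ Finset.Icc 1 d, ∫ x, (psi σ j x) ^ 2 ∂lap ≤ d * (1 / (2 * σ ^ 2)) := by
      refine (Finset.sum_le_sum fun j hj =>
        (psi_int2 h3 hσ (Finset.mem_Icc.1 hj).1).2).trans (le_of_eq ?_)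
      rw [Finset.sum_const, Nat.card_Icc, Nat.add_sub_cancel, nsmul_eq_mul]
    have e2 : t ^ 2 = (d : ℝ) ^ 3 / s1 ^ 2 := by
      rw [ht, mul_pow, ← Real.rpow_natCast ((d : ℝ) ^ (3 / 2 : ℝ)) 2, ← Real.rpow_mul hd0.le]
      have : (3 / 2 : ℝ) * ((2 : ℕ) : ℝ) = ((3 : ℕ) : ℝ) := by norm_num
      rw [this, Real.rpow_natCast]
      ring
    rw [div_le_iff₀ (by positivity), e2]
    refine e1.trans ?_
    have e3 : s1 ^ 2 ≤ (σ * d) ^ 2 := pow_le_pow_left₀ hs1.le hsd 2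
    rw [mul_one_div, div_le_iff₀ (by positivity)]
    have e4 : (1 / 2 : ℝ) * ((d : ℝ) ^ 3 / s1 ^ 2) * (2 * σ ^ 2) = (d : ℝ) * ((σ * d) ^ 2 / s1 ^ 2) := by
      field_simp
    rw [e4]
    have e5 : 1 ≤ (σ * d) ^ 2 / s1 ^ 2 := by
      rw [le_div_iff₀ (by positivity)]
      linarith
    nlinarith
  have hP : PP.real {ω | t ≤ |∑ j ∈ Finset.Icc 1 d, (psi σ j (ω j) - ∫ x, psi σ j x ∂lap)|} ≤ 1 / 2 :=
    hv.trans hsum
  -- the sum
  have hmu : ∀ ω : ℕ → ℝ, ∑ j ∈ Finset.Icc 1 d, (psi σ j (ω j) - ∫ x, psi σ j x ∂lap) =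
      ((∑ j ∈ Finset.Icc 1 d, (j : ℤ) * ⌊|ω j| / (2 * σ * j)⌋ : ℤ) : ℝ) - mu d σ := by
    intro ω
    rw [Finset.sum_sub_distrib]
    congr 1
    · push_cast
      rfl
    · exact Finset.sum_congr rfl fun j hj => psi_int1 h4 hσ (Finset.mem_Icc.1 hj).1
  have hcov : (Set.univ : Set (ℕ → ℝ)) ⊆
      {ω | t ≤ |∑ j ∈ Finset.Icc 1 d, (psi σ j (ω j) - ∫ x, psi σ j x ∂lap)|} ∪
        ⋃ m ∈ Finset.Icc ⌈mu d σ - t⌉ ⌊mu d σ + t⌋,
          {ω | (∑ j ∈ Finset.Icc 1 d, (j : ℤ) * ⌊|ω j| / (2 * σ * j)⌋) = m} := by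
    rintro ω -
    by_cases hω : t ≤ |∑ j ∈ Finset.Icc 1 d, (psi σ j (ω j) - ∫ x, psi σ j x ∂lap)|
    · exact Or.inl hω
    · right
      rw [not_le, hmu ω, abs_lt] at hω
      refine Set.mem_iUnion₂.2 ⟨∑ j ∈ Finset.Icc 1 d, (j : ℤ) * ⌊|ω j| / (2 * σ * j)⌋, ?_, rfl⟩
      rw [Finset.mem_Icc, Int.ceil_le, Int.le_floor]
      constructor <;> linarith [hω.1, hω.2]
  have hone : (1 : ℝ) ≤ 1 / 2 + ∑ m ∈ Finset.Icc ⌈mu d σ - t⌉ ⌊mu d σ + t⌋, aa d σ m := by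
    calc (1 : ℝ) = PP.real Set.univ := (probReal_univ).symm
      _ ≤ _ := measureReal_mono hcov
      _ ≤ _ := measureReal_union_le _ _
      _ ≤ _ := add_le_add hP ((measureReal_biUnion_finset_le _ _).trans
          (Finset.sum_le_sum fun m _ => (h1 d σ m hσ).symm.le))
  have hle : ∑ m ∈ Finset.Icc ⌈mu d σ - t⌉ ⌊mu d σ + t⌋, aa d σ m ≤ 1 / 4 := by
    refine (Finset.sum_le_card_nsmul _ _ _ hsm).trans ?_
    rw [nsmul_eq_mul]
    have hc := card_bound (mu d σ) t ht0.le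
    have hdp : (0 : ℝ) < (d : ℝ) ^ (-(3 / 2) : ℝ) := Real.rpow_pos_of_pos hd0 _
    have hprod : (d : ℝ) ^ (3 / 2 : ℝ) * (d : ℝ) ^ (-(3 / 2) : ℝ) = 1 := by
      rw [← Real.rpow_add hd0]
      norm_num
    have hdp1 : (d : ℝ) ^ (-(3 / 2) : ℝ) ≤ 1 := Real.rpow_le_one_of_one_le_of_nonpos hd1 (by norm_num)
    have hq : 0 < 1 / (4 * (2 / s1 + 1)) := by positivity
    calc ((Finset.Icc ⌈mu d σ - t⌉ ⌊mu d σ + t⌋).card : ℝ) *
          (1 / (4 * (2 / s1 + 1)) * (d : ℝ) ^ (-(3 / 2) : ℝ))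
        ≤ (2 * t + 1) * (1 / (4 * (2 / s1 + 1)) * (d : ℝ) ^ (-(3 / 2) : ℝ)) :=
          mul_le_mul_of_nonneg_right hc (by positivity)
      _ = 1 / (4 * (2 / s1 + 1)) * (2 / s1 * ((d : ℝ) ^ (3 / 2 : ℝ) * (d : ℝ) ^ (-(3 / 2) : ℝ)) +
          (d : ℝ) ^ (-(3 / 2) : ℝ)) := by
          rw [ht]
          ring
      _ ≤ 1 / (4 * (2 / s1 + 1)) * (2 / s1 * 1 + 1) := by
          rw [hprod]
          exact mul_le_mul_of_nonneg_left (by linarith) hq.le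
      _ = 1 / 4 := by
          field_simp
  linarith

end Pool.Agent.H828.GP174
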